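import Pool.Agent.Helper37.RQ.Defs

/-! Row B1 of the project RQ. -/

set_option autoImplicit false

namespace Pool.Agent.Helper37.RQ

open MeasureTheory Set Filter Topology
open scoped ENNReal FourierTransform ContDiff

theorem b1_cont {μ : Measure ℝ} [IsFiniteMeasure μ] : Continuous (chf μ) := by
  unfold chf
  refine continuous_of_dominated (bound := fun _ => 1) ?_ ?_ (integrable_const _) ?_
  · intro σ
    exact (by fun_prop : Continuous fun s : ℝ =>
      Complex.exp (((-2 * Real.pi * σ * s : ℝ) : ℂ) * Complex.I)).aestronglyMeasurable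
  · intro σ
    refine Filter.Eventually.of_forall fun s => ?_
    rw [Complex.norm_exp_ofReal_mul_I]
  · exact Filter.Eventually.of_forall fun s => by fun_prop

theorem b1_memLp {μ : Measure ℝ} [IsFiniteMeasure μ]
    (hφ : Integrable (fun σ : ℝ => σ ^ 2 * ‖chf μ σ‖ ^ 2)) :
    MemLp (fun σ : ℝ => (2 * Real.pi * Complex.I * σ) * chf μ σ) 2 volume := by
  have hc : Continuous fun σ : ℝ => (2 * Real.pi * Complex.I * σ) * chf μ σ :=
    (by fun_prop : Continuous fun σ : ℝ => (2 * Real.pi * Complex.I * (σ : ℂ))).mul b1_cont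
  rw [memLp_two_iff_integrable_sq_norm hc.aestronglyMeasurable]
  refine (hφ.const_mul (4 * Real.pi ^ 2)).congr (Filter.Eventually.of_forall fun σ => ?_)
  simp only [norm_mul, Complex.norm_I, Complex.norm_real, Real.norm_eq_abs, Complex.norm_ofNat,
    mul_one, mul_pow, sq_abs]
  ring

theorem b1_fub {μ : Measure ℝ} [IsFiniteMeasure μ] {K : ℝ → ℂ} (hK : Integrable K) :
    ∫ σ, K σ * chf μ σ = ∫ s, 𝓕 K s ∂μ := by
  have hint : Integrable (Function.uncurry fun (σ s : ℝ) =>
      K σ * Complex.exp (((-2 * Real.pi * σ * s : ℝ) : ℂ) * Complex.I)) (volume.prod μ) := by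
    have h1 : Integrable (fun z : ℝ × ℝ => K z.1 * (1 : ℂ)) (volume.prod μ) :=
      hK.mul_prod (integrable_const _)
    have h2 : Continuous fun z : ℝ × ℝ =>
      Complex.exp (((-2 * Real.pi * z.1 * z.2 : ℝ) : ℂ) * Complex.I) := by fun_prop
    refine h1.mono ?_ ?_
    · have h3 : AEStronglyMeasurable (fun z : ℝ × ℝ => K z.1) (volume.prod μ) := by
        simpa using h1.aestronglyMeasurable
      exact h3.mul h2.aestronglyMeasurable
    · refine Filter.Eventually.of_forall fun z => ?_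
      simp only [Function.uncurry, norm_mul, Complex.norm_exp_ofReal_mul_I, norm_one]
      exact le_rfl
  calc ∫ σ, K σ * chf μ σ
      = ∫ σ, ∫ s, K σ * Complex.exp (((-2 * Real.pi * σ * s : ℝ) : ℂ) * Complex.I) ∂μ := by
        refine integral_congr_ae (Filter.Eventually.of_forall fun σ => ?_)
        simp only [chf]
        rw [integral_const_mul]
    _ = ∫ s, (∫ σ, K σ * Complex.exp (((-2 * Real.pi * σ * s : ℝ) : ℂ) * Complex.I)) ∂μ :=
        integral_integral_swap hint
    _ = ∫ s, 𝓕 K s ∂μ := by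
        refine integral_congr_ae (Filter.Eventually.of_forall fun s => ?_)
        simp only
        rw [Real.fourier_real_eq_integral_exp_smul]
        refine integral_congr_ae (Filter.Eventually.of_forall fun σ => ?_)
        simp only [smul_eq_mul]
        rw [mul_comm]

theorem exists_deriv {μ : Measure ℝ} [IsFiniteMeasure μ]
    (hφ : Integrable (fun σ : ℝ => σ ^ 2 * ‖chf μ σ‖ ^ 2)) :
    ∃ q : ℝ → ℝ, Measurable q ∧ MemLp q 2 volume ∧
      ∀ g : ℝ → ℝ, ContDiff ℝ (⊤ : ℕ∞) g → HasCompactSupport g →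
        ∫ s, deriv g s ∂μ = - ∫ s, g s * q s := by
  have hψ := b1_memLp hφ
  set Ψ : Lp ℂ 2 (volume : Measure ℝ) := hψ.toLp with hΨ
  set Q : Lp ℂ 2 (volume : Measure ℝ) := 𝓕⁻ Ψ with hQ
  refine ⟨fun s => (Q s).re, ?_, (Lp.memLp Q).re, ?_⟩
  · exact Complex.measurable_re.comp (Lp.stronglyMeasurable Q).measurable
  intro g hg hgc
  have hg₁ : HasCompactSupport (Complex.ofRealCLM ∘ g) := hgc.comp_left rfl
  have hg₂ : ContDiff ℝ ∞ (Complex.ofRealCLM ∘ g) := by fun_prop
  set G : SchwartzMap ℝ ℂ := hg₁.toSchwartzMap hg₂ with hG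
  have hG1 : ∀ x, G x = (g x : ℂ) := fun x => rfl
  set G' : SchwartzMap ℝ ℂ := SchwartzMap.derivCLM ℂ ℂ G with hG'
  have hG'1 : ∀ x, G' x = ((deriv g x : ℝ) : ℂ) := by
    intro x
    rw [hG', SchwartzMap.derivCLM_apply]
    have h1 : HasDerivAt (fun y : ℝ => ((g y : ℝ) : ℂ)) ((deriv g x : ℝ) : ℂ) x :=
      ((hg.differentiable (by simp)).differentiableAt.hasDerivAt).ofReal_comp
    exact h1.deriv
  have hd : deriv (G : ℝ → ℂ) = (G' : ℝ → ℂ) := by
    funext x
    rw [hG', SchwartzMap.derivCLM_apply]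
  -- the Fourier transform of the derivative
  have h1 : ∀ σ : ℝ, 𝓕 (G' : ℝ → ℂ) σ = (2 * Real.pi * Complex.I * σ) • 𝓕 (G : ℝ → ℂ) σ := by
    intro σ
    have h2 := Real.fourier_deriv (f := (G : ℝ → ℂ)) G.integrable G.differentiable
      (by rw [hd]; exact G'.integrable)
    rw [hd] at h2
    rw [h2]
  -- the pairing
  have h3 : ∫ s, G s • Q s = ∫ σ, (𝓕⁻ G) σ • Ψ σ := by
    rw [← Lp.toTemperedDistribution_apply Q G, ← Lp.toTemperedDistribution_apply Ψ (𝓕⁻ G),
      hQ, ← Lp.fourierInv_toTemperedDistribution_eq, TemperedDistribution.fourierInv_apply]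
  have h4 : ∫ σ, (𝓕⁻ G) σ • Ψ σ = ∫ σ, - ((𝓕⁻ G') σ * chf μ σ) := by
    refine integral_congr_ae ?_
    filter_upwards [hψ.coeFn_toLp] with σ hσ
    rw [hΨ, hσ, SchwartzMap.fourierInv_coe, SchwartzMap.fourierInv_coe,
      Real.fourierInv_eq_fourier_neg, Real.fourierInv_eq_fourier_neg, h1]
    simp only [smul_eq_mul]
    push_cast
    ring
  have h5 : ∫ σ, (𝓕⁻ G') σ * chf μ σ = ∫ s, G' s ∂μ := by
    refine (b1_fub (μ := μ) (K := fun σ => (𝓕⁻ G') σ) (𝓕⁻ G').integrable).trans ?_
    refine integral_congr_ae (Filter.Eventually.of_forall fun s => ?_)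
    have h6 : 𝓕 (𝓕⁻ G') = G' := FourierTransform.fourier_fourierInv_eq G'
    have h7 := SchwartzMap.fourier_coe (𝓕⁻ G')
    rw [h6] at h7
    exact congrFun h7.symm s
  have h8 : ∫ s, G s • Q s = - ∫ s, G' s ∂μ := by
    rw [h3, h4, integral_neg, h5]
  have h9 : Integrable (fun s => G s • Q s) := by
    have h10 : MemLp (G : ℝ → ℂ) 2 volume := G.memLp 2 volume
    exact (Lp.memLp Q).integrable_mul h10 |>.congr (Filter.Eventually.of_forall fun s => by
      simp [mul_comm])
  have e1 : (∫ s, G s • Q s).re = ∫ s, g s * (Q s).re := by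
    have h10 := integral_re h9
    rw [show (∫ s, G s • Q s).re = RCLike.re (∫ s, G s • Q s) from rfl, ← h10]
    refine integral_congr_ae (Filter.Eventually.of_forall fun s => ?_)
    simp only [smul_eq_mul, hG1, RCLike.re_eq_complex_re, Complex.re_ofReal_mul]
  have e2 : (∫ s, G' s ∂μ).re = ∫ s, deriv g s ∂μ := by
    simp only [hG'1]
    rw [integral_complex_ofReal, Complex.ofReal_re]
  have h12 := congrArg Complex.re h8
  rw [Complex.neg_re, e1, e2] at h12
  linarith

end Pool.Agent.Helper37.RQ
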