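import Pool.Agent.Helper37.RQ.Defs

/-! Row B2 of the project RQ. -/

set_option autoImplicit false

namespace Pool.Agent.Helper37.RQ

open MeasureTheory Set Filter Topology
open scoped ENNReal

theorem b2_q0 {μ : Measure ℝ} [IsFiniteMeasure μ] {L : ℝ}
    (hs : μ {s | L < |s|} = 0) {q₀ : ℝ → ℝ} (hq2 : MemLp q₀ 2 volume)
    (hd : ∀ g : ℝ → ℝ, ContDiff ℝ (⊤ : ℕ∞) g → HasCompactSupport g →
        ∫ s, deriv g s ∂μ = - ∫ s, g s * q₀ s) : ∀ᵐ s, L < |s| → q₀ s = 0 := by
  have hU : IsOpen {s : ℝ | L < |s|} := isOpen_lt continuous_const continuous_abs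
  have hloc : LocallyIntegrableOn q₀ {s : ℝ | L < |s|} :=
    (hq2.locallyIntegrable (by norm_num)).locallyIntegrableOn _
  refine hU.ae_eq_zero_of_integral_contDiff_smul_eq_zero hloc (fun g hg hgc hgs => ?_)
  have h1 := hd g hg hgc
  have h2 : ∫ s, deriv g s ∂μ = 0 := by
    refine integral_eq_zero_of_ae ?_
    rw [Filter.EventuallyEq, ae_iff]
    refine measure_mono_null ?_ hs
    intro s hs'
    have h3 : s ∈ Function.support (deriv g) := hs'
    exact hgs (support_deriv_subset h3)
  rw [h2] at h1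
  simp only [smul_eq_mul]
  linarith

/-- the smooth cutoff -/
noncomputable def b2_chi (L : ℝ) (hL : 0 < L) : ContDiffBump (0 : ℝ) :=
  ⟨L + 1, L + 2, by linarith, by linarith⟩

theorem b2_chi_one {L : ℝ} (hL : 0 < L) {s : ℝ} (hs : |s| ≤ L + 1) : b2_chi L hL s = 1 := by
  refine ContDiffBump.one_of_mem_closedBall _ ?_
  rw [Metric.mem_closedBall, Real.dist_eq, sub_zero]
  exact hs

theorem b2_int {L : ℝ} {q₀ : ℝ → ℝ} (hq2 : MemLp q₀ 2 volume) :
    Integrable ((Icc (-L) L).indicator q₀) := by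
  rw [integrable_indicator_iff measurableSet_Icc]
  have h : MemLp q₀ 2 (volume.restrict (Icc (-L) L)) := hq2.restrict _
  have : IsFiniteMeasure (volume.restrict (Icc (-L) L)) :=
    ⟨by rw [Measure.restrict_apply_univ]; exact measure_Icc_lt_top⟩
  exact (h.mono_exponent (by norm_num : (1 : ℝ≥0∞) ≤ 2)).integrable le_rfl

theorem b2_total {μ : Measure ℝ} [IsFiniteMeasure μ] {L : ℝ} (hL : 0 < L)
    (hs : μ {s | L < |s|} = 0) {q₀ : ℝ → ℝ} (hq2 : MemLp q₀ 2 volume)
    (hd : ∀ g : ℝ → ℝ, ContDiff ℝ (⊤ : ℕ∞) g → HasCompactSupport g →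
        ∫ s, deriv g s ∂μ = - ∫ s, g s * q₀ s) :
    ∫ s, (Icc (-L) L).indicator q₀ s = 0 := by
  have h0 := b2_q0 hs hq2 hd
  have h1 := hd (b2_chi L hL) (b2_chi L hL).contDiff (b2_chi L hL).hasCompactSupport
  have h2 : ∫ s, deriv (b2_chi L hL) s ∂μ = 0 := by
    refine integral_eq_zero_of_ae ?_
    rw [Filter.EventuallyEq, ae_iff]
    refine measure_mono_null ?_ hs
    intro s hs'
    by_contra hc
    have hc' : |s| ≤ L := not_lt.mp hc
    refine hs' ?_
    have h3 : (b2_chi L hL : ℝ → ℝ) =ᶠ[𝓝 s] fun _ => 1 := by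
      have h4 : {x : ℝ | |x| < L + 1} ∈ 𝓝 s :=
        (isOpen_lt continuous_abs continuous_const).mem_nhds (by
          show |s| < L + 1; linarith)
      filter_upwards [h4] with x hx
      exact b2_chi_one hL (le_of_lt hx)
    rw [h3.deriv_eq]
    simp
  have h5 : ∫ s, b2_chi L hL s * q₀ s = ∫ s, (Icc (-L) L).indicator q₀ s := by
    refine integral_congr_ae ?_
    filter_upwards [h0] with s hs'
    by_cases h6 : s ∈ Icc (-L) L
    · rw [indicator_of_mem h6, b2_chi_one hL (by rw [mem_Icc] at h6; exact (abs_le.mpr h6).trans (by linarith)), one_mul]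
    · rw [indicator_of_notMem h6, hs' (by rw [mem_Icc] at h6; exact not_le.mp (fun h => h6 (abs_le.mp h))), mul_zero]
  rw [h5, h2] at h1
  linarith

theorem b2_prim {h : ℝ → ℝ} (hh : Continuous h) (hi : Integrable h) (s : ℝ) :
    HasDerivAt (fun s => ∫ t in Iic s, h t) (h s) s := by
  have e : (fun s => ∫ t in Iic s, h t) = fun s => (∫ t in Iic (0 : ℝ), h t) + ∫ t in (0 : ℝ)..s, h t := by
    funext s
    rw [← intervalIntegral.integral_Iic_sub_Iic hi.integrableOn hi.integrableOn]
    ring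
  rw [e]
  exact ((hh.integral_hasStrictDerivAt 0 s).hasDerivAt).const_add _

theorem b2_fub {h q : ℝ → ℝ} (hi : Integrable h) (hqi : Integrable q) (hq0 : ∫ s, q s = 0) :
    ∫ s, (∫ t in Iic s, h t) * q s = - ∫ t, h t * ∫ s in Iic t, q s := by
  have hint : Integrable (Function.uncurry fun (s t : ℝ) => (Iic s).indicator h t * q s)
      (volume.prod volume) := by
    have h1 : Integrable (fun z : ℝ × ℝ => q z.1 * h z.2) (volume.prod volume) := hqi.mul_prod hi
    have h2 : MeasurableSet {z : ℝ × ℝ | z.2 ≤ z.1} := measurableSet_le measurable_snd measurable_fst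
    refine (h1.indicator h2).congr ?_
    refine Filter.Eventually.of_forall fun z => ?_
    simp only [Function.uncurry, indicator, mem_ofPred_eq, mem_Iic]
    split_ifs <;> ring
  calc ∫ s, (∫ t in Iic s, h t) * q s = ∫ s, ∫ t, (Iic s).indicator h t * q s := by
        refine integral_congr_ae (Filter.Eventually.of_forall fun s => ?_)
        simp only
        rw [integral_mul_const, integral_indicator measurableSet_Iic]
    _ = ∫ t, ∫ s, (Iic s).indicator h t * q s := integral_integral_swap hint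
    _ = ∫ t, - (h t * ∫ s in Iic t, q s) := by
        refine integral_congr_ae (Filter.Eventually.of_forall fun t => ?_)
        simp only
        have e1 : ∀ s, (Iic s).indicator h t * q s = h t * (Ici t).indicator q s := by
          intro s
          simp only [indicator, mem_Iic, mem_Ici]
          split_ifs <;> ring
        simp only [e1]
        rw [integral_const_mul, integral_indicator measurableSet_Ici, integral_Ici_eq_integral_Ioi]
        have e2 : (∫ s in Iic t, q s) + ∫ s in Ioi t, q s = 0 := by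
          rw [intervalIntegral.integral_Iic_add_Ioi hqi.integrableOn hqi.integrableOn, hq0]
        have e3 : ∫ s in Ioi t, q s = - ∫ s in Iic t, q s := by linarith
        rw [e3]; ring
    _ = _ := integral_neg _

theorem b2_key {μ : Measure ℝ} [IsFiniteMeasure μ] {L : ℝ} (hL : 0 < L)
    (hs : μ {s | L < |s|} = 0) {q₀ : ℝ → ℝ} (hq2 : MemLp q₀ 2 volume)
    (hd : ∀ g : ℝ → ℝ, ContDiff ℝ (⊤ : ℕ∞) g → HasCompactSupport g →
        ∫ s, deriv g s ∂μ = - ∫ s, g s * q₀ s) {h : ℝ → ℝ} (hh : ContDiff ℝ (⊤ : ℕ∞) h)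
    (hc : HasCompactSupport h) :
    ∫ s, h s ∂μ = ∫ s, h s * ∫ t in Iic s, (Icc (-L) L).indicator q₀ t := by
  have h0 := b2_q0 hs hq2 hd
  have hi : Integrable h := hh.continuous.integrable_of_hasCompactSupport hc
  have hder := b2_prim hh.continuous hi
  set H : ℝ → ℝ := fun s => ∫ t in Iic s, h t with hH
  have hHs : ContDiff ℝ (⊤ : ℕ∞) H := by
    rw [contDiff_infty_iff_deriv]
    refine ⟨fun s => (hder s).differentiableAt, ?_⟩
    have : deriv H = h := funext fun s => (hder s).deriv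
    rw [this]; exact hh
  have h1 := hd (fun s => b2_chi L hL s * H s) ((b2_chi L hL).contDiff.mul hHs)
    ((b2_chi L hL).hasCompactSupport.mul_right)
  have h2 : ∫ s, deriv (fun s => b2_chi L hL s * H s) s ∂μ = ∫ s, h s ∂μ := by
    refine integral_congr_ae ?_
    rw [Filter.EventuallyEq, ae_iff]
    refine measure_mono_null ?_ hs
    intro s hs'
    by_contra hc
    have hc' : |s| ≤ L := not_lt.mp hc
    refine hs' ?_
    have h3 : (fun s => b2_chi L hL s * H s) =ᶠ[𝓝 s] H := by
      have h4 : {x : ℝ | |x| < L + 1} ∈ 𝓝 s :=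
        (isOpen_lt continuous_abs continuous_const).mem_nhds (by
          show |s| < L + 1; linarith)
      filter_upwards [h4] with x hx
      rw [b2_chi_one hL (le_of_lt hx), one_mul]
    rw [h3.deriv_eq]
    exact (hder s).deriv
  have h5 : ∫ s, b2_chi L hL s * H s * q₀ s = ∫ s, H s * (Icc (-L) L).indicator q₀ s := by
    refine integral_congr_ae ?_
    filter_upwards [h0] with s hs'
    by_cases h6 : s ∈ Icc (-L) L
    · rw [indicator_of_mem h6, b2_chi_one hL (by rw [mem_Icc] at h6; exact (abs_le.mpr h6).trans (by linarith)), one_mul]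
    · rw [indicator_of_notMem h6, hs' (by rw [mem_Icc] at h6; exact not_le.mp (fun h => h6 (abs_le.mp h))), mul_zero, mul_zero]
  rw [h2, h5, hH, b2_fub hi (b2_int hq2) (b2_total hL hs hq2 hd), neg_neg] at h1
  exact h1

theorem b2_pcont {q : ℝ → ℝ} (hqi : Integrable q) : Continuous fun s => ∫ t in Iic s, q t := by
  have e : (fun s => ∫ t in Iic s, q t) = fun s => (∫ t in Iic (0 : ℝ), q t) + ∫ t in (0 : ℝ)..s, q t := by
    funext s
    rw [← intervalIntegral.integral_Iic_sub_Iic hqi.integrableOn hqi.integrableOn]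
    ring
  rw [e]
  exact continuous_const.add
    (intervalIntegral.continuous_primitive (fun a b => hqi.intervalIntegrable) 0)

theorem b2_psupp {L : ℝ} {q : ℝ → ℝ} (hq0 : ∀ s, L < |s| → q s = 0) (hqi : Integrable q)
    (ht : ∫ s, q s = 0) {s : ℝ} (hs : L < |s|) : ∫ t in Iic s, q t = 0 := by
  rcases lt_or_ge 0 s with h | h
  · have e2 : (∫ t in Iic s, q t) + ∫ t in Ioi s, q t = 0 := by
      rw [intervalIntegral.integral_Iic_add_Ioi hqi.integrableOn hqi.integrableOn, ht]
    have e3 : ∫ t in Ioi s, q t = 0 := setIntegral_eq_zero_of_forall_eq_zero fun t ht => hq0 t (by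
      rw [abs_of_pos h] at hs; rw [mem_Ioi] at ht; rw [abs_of_pos (h.trans ht)]; linarith)
    linarith
  · exact setIntegral_eq_zero_of_forall_eq_zero fun t ht => hq0 t (by
      rw [abs_of_nonpos h] at hs; rw [mem_Iic] at ht; rw [abs_of_nonpos (ht.trans h)]; linarith)

theorem b2_ioo {μ : Measure ℝ} [IsFiniteMeasure μ] {p : ℝ → ℝ} (hpi : Integrable p)
    (hk : ∀ h : ℝ → ℝ, ContDiff ℝ (⊤ : ℕ∞) h → HasCompactSupport h →
      ∫ s, h s ∂μ = ∫ s, h s * p s) (a b : ℝ) :
    μ.real (Ioo a b) = ∫ s in Ioo a b, p s := by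
  obtain ⟨f, hf, hfd, hfr⟩ :=
    (isOpen_Ioo : IsOpen (Ioo a b)).exists_contDiff_support_eq (n := (⊤ : ℕ∞))
  set h : ℕ → ℝ → ℝ := fun n s => Real.smoothTransition ((n : ℝ) * f s) with hh
  have hd : ∀ n, ContDiff ℝ (⊤ : ℕ∞) (h n) := fun n =>
    Real.smoothTransition.contDiff.comp (contDiff_const.mul hfd)
  have hz : ∀ n s, s ∉ Ioo a b → h n s = 0 := by
    intro n s hs
    have h1 : f s = 0 := by
      rw [← hf] at hs
      exact Function.notMem_support.mp hs
    simp [hh, h1]
  have hc : ∀ n, HasCompactSupport (h n) := fun n =>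
    HasCompactSupport.intro (isCompact_Icc : IsCompact (Icc a b))
      (fun s hs => hz n s (fun h => hs (Ioo_subset_Icc_self h)))
  have hl : ∀ s, Tendsto (fun n => h n s) atTop (𝓝 ((Ioo a b).indicator (fun _ => (1 : ℝ)) s)) := by
    intro s
    by_cases hs : s ∈ Ioo a b
    · rw [indicator_of_mem hs]
      have h1 : f s ≠ 0 := by
        rw [← hf] at hs
        exact hs
      have h2 : 0 < f s := lt_of_le_of_ne (hfr ⟨s, rfl⟩).1 (Ne.symm h1)
      refine tendsto_const_nhds.congr' ?_
      have h3 : Tendsto (fun n : ℕ => (n : ℝ) * f s) atTop atTop :=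
        tendsto_natCast_atTop_atTop.atTop_mul_const h2
      filter_upwards [h3.eventually_ge_atTop 1] with n hn
      exact (Real.smoothTransition.one_of_one_le hn).symm
    · rw [indicator_of_notMem hs]
      refine tendsto_const_nhds.congr fun n => ?_
      exact (hz n s hs).symm
  have hb : ∀ n s, ‖h n s‖ ≤ 1 := by
    intro n s
    rw [Real.norm_eq_abs, abs_of_nonneg (Real.smoothTransition.nonneg _)]
    exact Real.smoothTransition.le_one _
  have t1 : Tendsto (fun n => ∫ s, h n s ∂μ) atTop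
      (𝓝 (∫ s, (Ioo a b).indicator (fun _ => (1 : ℝ)) s ∂μ)) := by
    refine tendsto_integral_of_dominated_convergence (fun _ => 1) ?_ (integrable_const _) ?_ ?_
    · exact fun n => (hd n).continuous.aestronglyMeasurable
    · exact fun n => Filter.Eventually.of_forall (hb n)
    · exact Filter.Eventually.of_forall hl
  have t2 : Tendsto (fun n => ∫ s, h n s * p s) atTop
      (𝓝 (∫ s, (Ioo a b).indicator (fun _ => (1 : ℝ)) s * p s)) := by
    refine tendsto_integral_of_dominated_convergence (fun s => ‖p s‖) ?_ hpi.norm ?_ ?_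
    · exact fun n => (hd n).continuous.aestronglyMeasurable.mul hpi.aestronglyMeasurable
    · intro n
      refine Filter.Eventually.of_forall fun s => ?_
      rw [norm_mul]
      calc ‖h n s‖ * ‖p s‖ ≤ 1 * ‖p s‖ := by gcongr; exact hb n s
        _ = ‖p s‖ := one_mul _
    · exact Filter.Eventually.of_forall fun s => (hl s).mul_const _
  have e : ∀ n, ∫ s, h n s ∂μ = ∫ s, h n s * p s := fun n => hk _ (hd n) (hc n)
  simp only [e] at t1
  have h3 := tendsto_nhds_unique t1 t2
  rw [integral_indicator measurableSet_Ioo, setIntegral_const, smul_eq_mul, mul_one] at h3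
  rw [h3, ← integral_indicator measurableSet_Ioo]
  refine integral_congr_ae (Filter.Eventually.of_forall fun s => ?_)
  simp only [indicator]
  split_ifs <;> simp

theorem b2_nonneg {μ : Measure ℝ} {p : ℝ → ℝ} (hp : Continuous p) (hpi : Integrable p)
    (hio : ∀ a b : ℝ, μ.real (Ioo a b) = ∫ s in Ioo a b, p s) (s : ℝ) : 0 ≤ p s := by
  by_contra hn
  have hn' : p s < 0 := not_le.mp hn
  have h1 : {x : ℝ | p x < p s / 2} ∈ 𝓝 s :=
    (isOpen_lt hp continuous_const).mem_nhds (by show p s < p s / 2; linarith)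
  obtain ⟨ε, hε, hb⟩ := Metric.mem_nhds_iff.mp h1
  have h2 := hio (s - ε) (s + ε)
  have h3 : ∫ x in Ioo (s - ε) (s + ε), p x ≤ ∫ x in Ioo (s - ε) (s + ε), p s / 2 := by
    refine setIntegral_mono_on hpi.integrableOn (by simp) measurableSet_Ioo fun x hx => ?_
    have h4 : x ∈ Metric.ball s ε := by rw [Real.ball_eq_Ioo]; exact hx
    exact le_of_lt (hb h4)
  rw [setIntegral_const, smul_eq_mul, Real.volume_real_Ioo_of_le (by linarith)] at h3
  have h5 : 0 ≤ μ.real (Ioo (s - ε) (s + ε)) := measureReal_nonneg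
  rw [h2] at h5
  have h6 : (s + ε - (s - ε)) * (p s / 2) < 0 := by
    refine mul_neg_of_pos_of_neg (by linarith) (by linarith)
  linarith

theorem b2_meas {μ : Measure ℝ} [IsFiniteMeasure μ] {p : ℝ → ℝ} (hpi : Integrable p)
    (hp0 : ∀ s, 0 ≤ p s) (hio : ∀ a b : ℝ, μ.real (Ioo a b) = ∫ s in Ioo a b, p s) :
    μ = volume.withDensity (fun s => ENNReal.ofReal (p s)) := by
  refine Real.measure_ext_Ioo_rat fun a b => ?_
  rw [withDensity_apply _ measurableSet_Ioo,
    ← ofReal_integral_eq_lintegral_ofReal hpi.integrableOn (Filter.Eventually.of_forall hp0),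
    ← hio, ofReal_measureReal]

theorem exists_dens {μ : Measure ℝ} [IsFiniteMeasure μ] (hμ : μ ≠ 0) {L : ℝ} (hL : 0 < L)
    (hs : μ {s | L < |s|} = 0) {q₀ : ℝ → ℝ} (hq : Measurable q₀) (hq2 : MemLp q₀ 2 volume)
    (hd : ∀ g : ℝ → ℝ, ContDiff ℝ (⊤ : ℕ∞) g → HasCompactSupport g →
        ∫ s, deriv g s ∂μ = - ∫ s, g s * q₀ s) :
    ∃ p q : ℝ → ℝ, Dens L p q ∧ μ = volume.withDensity (fun s => ENNReal.ofReal (p s)) := by
  have hqi := b2_int (L := L) hq2
  have hqt := b2_total hL hs hq2 hd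
  have hqs : ∀ s, L < |s| → (Icc (-L) L).indicator q₀ s = 0 := fun s h =>
    indicator_of_notMem (s := Icc (-L) L) (fun h' => absurd (abs_le.mpr h') (not_le.mpr h)) _
  set q : ℝ → ℝ := (Icc (-L) L).indicator q₀ with hqdef
  set p : ℝ → ℝ := fun s => ∫ t in Iic s, q t with hpdef
  have hpc : Continuous p := b2_pcont hqi
  have hps : ∀ s, L < |s| → p s = 0 := fun s h => b2_psupp hqs hqi hqt h
  have hpcs : HasCompactSupport p := HasCompactSupport.intro (isCompact_Icc : IsCompact (Icc (-L) L))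
    (fun s h => hps s (not_le.mp fun h' => h (abs_le.mp h')))
  have hpi : Integrable p := hpc.integrable_of_hasCompactSupport hpcs
  have hio : ∀ a b : ℝ, μ.real (Ioo a b) = ∫ s in Ioo a b, p s :=
    b2_ioo hpi (fun h hh hc => b2_key hL hs hq2 hd hh hc)
  have hp0 := b2_nonneg hpc hpi hio
  have hmu := b2_meas hpi hp0 hio
  refine ⟨p, q, ⟨hL, hq.indicator measurableSet_Icc, hq2.indicator measurableSet_Icc, hqs,
    fun s => rfl, hp0, hps, ?_⟩, hmu⟩
  have h1 : 0 ≤ ∫ s, p s := integral_nonneg hp0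
  refine lt_of_le_of_ne h1 (fun h2 => hμ ?_)
  rw [hmu, ← Measure.measure_univ_eq_zero, withDensity_apply _ MeasurableSet.univ,
    Measure.restrict_univ,
    ← ofReal_integral_eq_lintegral_ofReal hpi (Filter.Eventually.of_forall hp0), ← h2,
    ENNReal.ofReal_zero]

end Pool.Agent.Helper37.RQ
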